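import Pool.Agent.Helper84.AA.Defs

/-!
# EX, leaves E1 and E2

E1: trace polynomials are closed under multiplication. E2: `(X - 1) (X³ - 3 q X - q)` is a trace polynomial.
With `s = √q` and `cos (3 θ) = 1 / (2 s)`, `c = cos θ`, `d = sin θ`, the roots of the cubic are `2 s c`,
`- s (c + √3 d)` and `- s (c - √3 d)`.
-/

set_option autoImplicit false

open Polynomial

namespace Pool.Agent.Helper77.EX

open Pool.Agent.Helper84.AA

/-- E1: closed under multiplication. -/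
theorem isTrace_mul {q m n : ℕ} {u v : ℤ[X]} (hu : IsTrace q m u) (hv : IsTrace q n v) :
    IsTrace q (m + n) (u * v) := by
  refine ⟨hu.1.mul hv.1, ?_, ?_⟩
  · rw [hu.1.natDegree_mul hv.1, hu.2.1, hv.2.1]
  · intro z hz
    rw [map_mul, mul_eq_zero] at hz
    exact hz.elim (hu.2.2 z) (hv.2.2 z)

/-- E2, for the polynomial written out. -/
theorem isTrace_cubic {q : ℕ} (hq : 1 ≤ q) :
    IsTrace q 4 ((X - 1) * (X ^ 3 - C (3 * (q : ℤ)) * X - C (q : ℤ))) := by
  have h3m : (X ^ 3 - C (3 * (q : ℤ)) * X - C (q : ℤ) : ℤ[X]).Monic := by monicity!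
  have h3d : (X ^ 3 - C (3 * (q : ℤ)) * X - C (q : ℤ) : ℤ[X]).natDegree = 3 := by compute_degree!
  have h1m : (X - 1 : ℤ[X]).Monic := by
    have := monic_X_sub_C (1 : ℤ)
    rwa [C_1] at this
  have h1d : (X - 1 : ℤ[X]).natDegree = 1 := by
    have := natDegree_X_sub_C (1 : ℤ)
    rwa [C_1] at this
  have hq1 : (1 : ℝ) ≤ q := by exact_mod_cast hq
  refine ⟨h1m.mul h3m, ?_, ?_⟩
  · rw [h1m.natDegree_mul h3m, h1d, h3d]
  · intro z hz
    rw [map_mul, mul_eq_zero] at hz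
    rcases hz with hz | hz
    · refine ⟨1, ?_, by linarith⟩
      rw [map_sub, aeval_X, map_one, sub_eq_zero] at hz
      rw [hz, Complex.ofReal_one]
    · obtain ⟨s, hs⟩ : ∃ s : ℝ, s = √(q : ℝ) := ⟨_, rfl⟩
      have hs2 : s ^ 2 = q := by
        rw [hs]
        exact Real.sq_sqrt (by linarith)
      have hs1 : 1 ≤ s := by
        rw [hs]
        exact Real.one_le_sqrt.2 hq1
      obtain ⟨θ, hθ⟩ : ∃ θ : ℝ, Real.cos (3 * θ) = 1 / (2 * s) := by
        refine ⟨Real.arccos (1 / (2 * s)) / 3, ?_⟩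
        rw [mul_div_cancel₀ _ (by norm_num)]
        apply Real.cos_arccos
        · have : 0 ≤ 1 / (2 * s) := by positivity
          linarith
        · rw [div_le_one (by linarith)]
          linarith
      rw [Real.cos_three_mul] at hθ
      obtain ⟨c, hc⟩ : ∃ c : ℝ, c = Real.cos θ := ⟨_, rfl⟩
      obtain ⟨d, hd⟩ : ∃ d : ℝ, d = Real.sin θ := ⟨_, rfl⟩
      obtain ⟨w, hw⟩ : ∃ w : ℝ, w = √3 := ⟨_, rfl⟩
      have hcd : c ^ 2 + d ^ 2 = 1 := by
        rw [hc, hd]
        exact Real.cos_sq_add_sin_sq θ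
      have hw3 : w ^ 2 = 3 := by
        rw [hw]
        exact Real.sq_sqrt (by norm_num)
      rw [← hc, eq_div_iff (by positivity)] at hθ
      have hqz : ((q : ℕ) : ℂ) = (s : ℂ) ^ 2 := by
        rw [← Complex.ofReal_pow, hs2, Complex.ofReal_natCast]
      have hz' : z ^ 3 - 3 * (s : ℂ) ^ 2 * z - (s : ℂ) ^ 2 = 0 := by
        rw [map_sub, map_sub, map_mul, map_pow, aeval_X, aeval_C, aeval_C] at hz
        rw [← hqz]
        rw [← hz]
        simp
      have e1 : (c : ℂ) ^ 2 + (d : ℂ) ^ 2 = 1 := by exact_mod_cast hcd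
      have e2 : (w : ℂ) ^ 2 = 3 := by exact_mod_cast hw3
      have e3 : (4 * (c : ℂ) ^ 3 - 3 * (c : ℂ)) * (2 * (s : ℂ)) = 1 := by exact_mod_cast hθ
      have hfac : (z - ((2 * s * c : ℝ) : ℂ)) * ((z - ((-(s * (c + w * d)) : ℝ) : ℂ)) *
          (z - ((-(s * (c - w * d)) : ℝ) : ℂ))) = 0 := by
        rw [← hz']
        push_cast
        linear_combination (-(s : ℂ) ^ 2 * z * (d : ℂ) ^ 2 + 2 * (s : ℂ) ^ 3 * (c : ℂ) * (d : ℂ) ^ 2) * e2 +
          (-3 * (s : ℂ) ^ 2 * z + 6 * (s : ℂ) ^ 3 * (c : ℂ)) * e1 - (s : ℂ) ^ 2 * e3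
      have hb : ∀ t : ℝ, t ^ 2 ≤ 4 → (s * t) ^ 2 ≤ 4 * (q : ℝ) := by
        intro t ht
        rw [mul_pow, hs2, mul_comm]
        exact mul_le_mul_of_nonneg_right ht (by linarith)
      rcases mul_eq_zero.1 hfac with h | h
      · refine ⟨2 * s * c, (sub_eq_zero.1 h).symm, ?_⟩
        have h1 := hb (2 * c) (by nlinarith [sq_nonneg d])
        have h2 : 2 * s * c = s * (2 * c) := by ring
        rwa [h2]
      · rcases mul_eq_zero.1 h with h | h
        · refine ⟨-(s * (c + w * d)), (sub_eq_zero.1 h).symm, ?_⟩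
          rw [neg_sq]
          refine hb _ ?_
          nlinarith [sq_nonneg (w * c - d)]
        · refine ⟨-(s * (c - w * d)), (sub_eq_zero.1 h).symm, ?_⟩
          rw [neg_sq]
          refine hb _ ?_
          nlinarith [sq_nonneg (w * c + d)]

end Pool.Agent.Helper77.EX
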